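import Pool.Graph.R_seed8.NPC.Dec
import Pool.Agent.H962.PR.Mem
import Pool.Agent.H224.PR.CC
import Pool.Agent.H719.PR.QC1
import Pool.Agent.H314.PR.QC2
import Pool.Agent.H729.PR.QC3
import Pool.Agent.H233.PR.Len
import Pool.Agent.H152.PR.QQ
import Pool.Agent.H294.PR.Real
import Pool.Agent.H807.PR.Marks
import Pool.Agent.H671.PR.Yes
import Pool.Agent.H494.PR.Force2
import Pool.Agent.H922.PR.Force
import Pool.Agent.H665.PR.No
import Pool.Agent.H686.PR.Iso
import Pool.Agent.H231.PR.Poly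

/-!
# Recognition of pairwise compatibility graphs is NP-hard: assembly
-/

set_option autoImplicit false

namespace Pool.Agent.H717.PR.Final

open Pool.Agent.NPC Pool.Agent.H717.PR Pool.Agent.V11227.BT

theorem no : S_no :=
  Pool.Agent.H665.PR.t_no Pool.Agent.H962.PR.t_mem Pool.Agent.H494.PR.t_fp
    (Pool.Agent.H494.PR.t_force Pool.Agent.H962.PR.t_mem Pool.Agent.H494.PR.t_fp
      Pool.Agent.H922.PR.t_forceNear Pool.Agent.H922.PR.t_forceFar)

theorem yes : S_yes :=
  Pool.Agent.H671.PR.t_yes Pool.Agent.H962.PR.t_mem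
    (Pool.Agent.H224.PR.t_cc Pool.Agent.H962.PR.t_mem)
    (Pool.Agent.H719.PR.QC1.t_qc1 Pool.Agent.H962.PR.t_mem)
    (Pool.Agent.H314.PR.QC2.t_qc2 Pool.Agent.H962.PR.t_mem)
    (Pool.Agent.H729.PR.t_qc3 Pool.Agent.H962.PR.t_mem)
    (Pool.Agent.H233.PR.t_len Pool.Agent.H962.PR.t_mem)
    Pool.Agent.H152.PR.t_qq Pool.Agent.H294.PR.t_real

/-- The reduction is correct. -/
theorem red_correct {I : Inst} (hg : Good I) : Betweenness I ↔ PCGRecognition (red I) := by
  rw [Pool.Agent.H686.PR.t_iso I]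
  constructor
  · intro h
    obtain ⟨α, β, ν, τ, N, hM⟩ := Pool.Agent.H807.PR.t_marks I hg h
    exact yes I α β ν τ N hg hM
  · exact no I hg

theorem hardI_pcg : HardI PCGRecognition :=
  (hardPr_betweenness.trans (Pr' := fun _ => True) Pool.Agent.H231.PR.t_poly
    (fun _ _ => trivial) (fun _ h => red_correct h)).toHardI

end Pool.Agent.H717.PR.Final
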