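import Pool.Graph.R_pool_sql_team_seeded_843ab51a.V11227.PC2
import Pool.Graph.R_pool_sql_team_seeded_ab47071d.TH667.PCG.Realize
import Pool.Graph.R_seed8.H622R2.Base

/-!
# Recognition of pairwise compatibility graphs is NP-hard: definitions and statements

A pair of leaves is *near* if its distance is less than `dmin` and *far* if it is greater than
`dmax`.  A non-adjacent pair `u, v` is forced to be near by four new vertices `a, b, c, d`, all
adjacent to `u` and `v`, with the edges `ab`, `cd`.  A non-adjacent pair `p, q` is forced to be far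
by two new vertices `x` (adjacent to `p`) and `y` (adjacent to `q`), and by forcing the pairs
`x q`, `x y`, `y p` to be near.
-/

set_option autoImplicit false

namespace Pool.Agent.H717.PR

open Pool.Agent.NPC Pool.Agent.H622R2 Pool.Agent.V11227.BT
open Pool.Agent.TH667.PCG (LeafTree)

/-- `G` is a pairwise compatibility graph: it is `PCG(t, dmin, dmax)` for an edge-weighted tree `t`
with positive weights, whose leaves are the vertices of `G`, and `0 ≤ dmin ≤ dmax`. -/
def IsPCG {V : Type} (G : SimpleGraph V) : Prop :=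
  ∃ (t : LeafTree V) (dmin dmax : ℝ), 0 ≤ dmin ∧ dmin ≤ dmax ∧ G = t.pcg dmin dmax

/-- **PCG recognition.** The input is the adjacency matrix of a graph `G`; the question is whether
`G` is a pairwise compatibility graph. -/
def PCGRecognition (M : List (List Bool)) : Prop := IsPCG (matGraph M)

/-! ### The instance -/

/-- Labels of the base vertices: kind and index. -/
abbrev Lb := ℕ × ℕ

/-- Labels of the vertices: kind, and a pair of base vertices. -/
abbrev VL := ℕ × (Lb × Lb)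

/-- Betweenness instances. -/
abbrev Inst := List ℕ × List (ℕ × ℕ × ℕ)

/-- The triple with a given index. -/
def tr (I : Inst) (i : ℕ) : ℕ × ℕ × ℕ := I.2.getD i (0, 0, 0)

/-- The base vertices: `(0, x)`, `(1, x)`, `(2, x)` for the elements `x`, and `(3, i)`, `(4, i)` for
the indices `i` of triples. -/
def base (I : Inst) : List Lb :=
  I.1.map (fun x => (0, x)) ++ (I.1.map (fun x => (1, x)) ++ (I.1.map (fun x => (2, x)) ++
    ((List.range I.2.length).map (fun i => (3, i)) ++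
      (List.range I.2.length).map (fun i => (4, i)))))

/-- Pairs which have to be near. -/
def nearB (I : Inst) (u v : Lb) : Bool :=
  (decide (u.1 = 1) && (decide (v.1 = 1) && !decide (u.2 = v.2))) ||
  ((decide (u.1 = 2) && (decide (v.1 = 2) && !decide (u.2 = v.2))) ||
  ((decide (u.1 = 1) && (decide (v.1 = 0) && decide (u.2 = v.2))) ||
  ((decide (u.1 = 2) && (decide (v.1 = 0) && decide (u.2 = v.2))) ||
  ((decide (u.1 = 3) && (decide (v.1 = 0) &&
    (decide (v.2 = (tr I u.2).1) || decide (v.2 = (tr I u.2).2.1)))) ||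
  (decide (u.1 = 4) && (decide (v.1 = 0) &&
    (decide (v.2 = (tr I u.2).2.1) || decide (v.2 = (tr I u.2).2.2))))))))

/-- Pairs which have to be far. -/
def farB (I : Inst) (u v : Lb) : Bool :=
  (decide (u.1 = 0) && (decide (v.1 = 0) && !decide (u.2 = v.2))) ||
  ((decide (u.1 = 1) && (decide (v.1 = 2) && decide (u.2 = v.2))) ||
  ((decide (u.1 = 3) && (decide (v.1 = 0) && decide (v.2 = (tr I u.2).2.2))) ||
  (decide (u.1 = 4) && (decide (v.1 = 0) && decide (v.2 = (tr I u.2).1)))))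

/-- The symmetric version. -/
def near (I : Inst) (u v : Lb) : Bool := nearB I u v || nearB I v u

/-- The symmetric version. -/
def far (I : Inst) (u v : Lb) : Bool := farB I u v || farB I v u

/-- The vertices (as a list with possible repetitions).
* `(0, (u, u))` is the base vertex `u`;
* `(k, (u, v))` with `1 ≤ k ≤ 4` are the four vertices which force the base vertices `u`, `v` to be
  near;
* `(5, (u, v))` is the vertex `x` adjacent to `u`, for the far pair `u, v` (and then `(5, (v, u))` is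
  the vertex `y` adjacent to `v`);
* `(k, (u, v))` with `6 ≤ k ≤ 9` are the four vertices which force `v` and `(5, (u, v))` to be near;
* `(k, (u, v))` with `10 ≤ k ≤ 13` are the four vertices which force `(5, (u, v))` and `(5, (v, u))`
  to be near. -/
def vs0 (I : Inst) : List VL :=
  (base I).map (fun u => (0, (u, u))) ++
  ((base I).flatMap (fun u => (base I).flatMap (fun v => if near I u v = true then
    [(1, (u, v)), (2, (u, v)), (3, (u, v)), (4, (u, v))] else [])) ++
  (base I).flatMap (fun u => (base I).flatMap (fun v => if far I u v = true then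
    [(5, (u, v)), (6, (u, v)), (7, (u, v)), (8, (u, v)), (9, (u, v)), (10, (u, v)), (11, (u, v)),
      (12, (u, v)), (13, (u, v))] else [])))

/-- The vertices. -/
def vs (I : Inst) : List VL := ddup (vs0 I)

/-- The adjacency test (to be symmetrised). -/
def adj (w z : VL) : Bool :=
  (decide (w.1 = 5) && decide (z = (0, (w.2.1, w.2.1)))) ||
  (((decide (1 ≤ w.1) && decide (w.1 ≤ 4)) &&
    (decide (z = (0, (w.2.1, w.2.1))) || decide (z = (0, (w.2.2, w.2.2))))) ||
  (((decide (6 ≤ w.1) && decide (w.1 ≤ 9)) &&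
    (decide (z = (0, (w.2.2, w.2.2))) || decide (z = (5, (w.2.1, w.2.2))))) ||
  (((decide (10 ≤ w.1) && decide (w.1 ≤ 13)) &&
    (decide (z = (5, (w.2.1, w.2.2))) || decide (z = (5, (w.2.2, w.2.1))))) ||
  ((decide (w.1 = 1) || (decide (w.1 = 3) || (decide (w.1 = 6) || (decide (w.1 = 8) ||
    (decide (w.1 = 10) || decide (w.1 = 12)))))) && decide (z = (w.1 + 1, w.2))))))

/-- The graph on the labels. -/
abbrev gr (I : Inst) : SimpleGraph {w : VL // w ∈ vs I} := labGraph (vs I) adj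

/-- The reduction. -/
def red (I : Inst) : List (List Bool) := mat (vs I) adj

/-! ### Marks -/

/-- Every base vertex `u` is an interval from `α u` to `β u`, all end points are different, pairs
which have to be near overlap without inclusion, pairs which have to be far are disjoint. -/
structure Marks (I : Inst) (α β ν : Lb → ℤ) (τ N : ℤ) : Prop where
  lt : ∀ u ∈ base I, α u < β u
  aa : ∀ u ∈ base I, ∀ v ∈ base I, u ≠ v → α u ≠ α v
  bb : ∀ u ∈ base I, ∀ v ∈ base I, u ≠ v → β u ≠ β v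
  ab : ∀ u ∈ base I, ∀ v ∈ base I, α u ≠ β v
  near : ∀ u ∈ base I, ∀ v ∈ base I, near I u v = true →
    (α u < α v ∧ α v < β u ∧ β u < β v) ∨ (α v < α u ∧ α u < β v ∧ β v < β u)
  far : ∀ u ∈ base I, ∀ v ∈ base I, far I u v = true → β u < α v ∨ β v < α u
  tau : ∀ u ∈ base I, ∀ v ∈ base I, α u - β v ≤ τ
  pos : 1 ≤ τ
  nu1 : ∀ u ∈ base I, 4 * τ ≤ ν u ∧ ν u ≤ N
  nu2 : ∀ u ∈ base I, ∀ v ∈ base I, u ≠ v → ν u + 4 * τ ≤ ν v ∨ ν v + 4 * τ ≤ ν u

variable (S τ : ℤ) (α β ν : Lb → ℤ)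

/-- Left end of the interval of a vertex of kind `0` or `5`. -/
def lf (w : VL) : ℤ :=
  if w.1 = 0 then S * α w.2.1 else
  if β w.2.1 < α w.2.2 then S * β w.2.1 + (α w.2.2 - β w.2.1) else S * β w.2.2 - ν w.2.1

/-- Right end of the interval of a vertex of kind `0` or `5`. -/
def rt (w : VL) : ℤ :=
  if w.1 = 0 then S * β w.2.1 else
  if β w.2.1 < α w.2.2 then S * α w.2.2 + ν w.2.1 else S * α w.2.1 - (α w.2.1 - β w.2.2)

/-- Left end of the overlap of a forcing gadget. -/
def ol (w : VL) : ℤ :=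
  if w.1 ≤ 4 then S * max (α w.2.1) (α w.2.2) else
  if w.1 ≤ 9 then (if β w.2.1 < α w.2.2 then S * α w.2.2 else S * β w.2.2 - ν w.2.1) else
  if β w.2.1 < α w.2.2 then S * β w.2.1 + (α w.2.2 - β w.2.1) - τ
  else S * β w.2.2 + (α w.2.1 - β w.2.2) - τ

/-- Right end of the overlap of a forcing gadget. -/
def or (w : VL) : ℤ :=
  if w.1 ≤ 4 then S * min (β w.2.1) (β w.2.2) else
  if w.1 ≤ 9 then (if β w.2.1 < α w.2.2 then S * α w.2.2 + ν w.2.1 else S * β w.2.2) else
  if β w.2.1 < α w.2.2 then S * α w.2.2 - (α w.2.2 - β w.2.1) + τ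
  else S * α w.2.1 - (α w.2.1 - β w.2.2) + τ

/-- The two vertices of a gadget on the same stem get the same number. -/
def stemNo (k : ℕ) : ℕ := if k ≤ 4 then (k + 1) / 2 * 2 - 1 else k / 2 * 2

/-! ### The statements -/

/-- membership in the list of vertices -/
def S_mem : Prop := ∀ (I : Inst) (w : VL), w ∈ vs I ↔
  (w.1 = 0 ∧ w.2.1 = w.2.2 ∧ w.2.1 ∈ base I) ∨
  (1 ≤ w.1 ∧ w.1 ≤ 4 ∧ w.2.1 ∈ base I ∧ w.2.2 ∈ base I ∧ near I w.2.1 w.2.2 = true) ∨
  (5 ≤ w.1 ∧ w.1 ≤ 13 ∧ w.2.1 ∈ base I ∧ w.2.2 ∈ base I ∧ far I w.2.1 w.2.2 = true)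

/-- the adjacency of two vertices which are intervals -/
def S_cc : Prop := ∀ (I : Inst) (α β ν : Lb → ℤ) (τ N S : ℤ), Marks I α β ν τ N →
  2 * N + 10 * τ ≤ S → ∀ w ∈ vs I, ∀ z ∈ vs I, w ≠ z → (w.1 = 0 ∨ w.1 = 5) →
  (z.1 = 0 ∨ z.1 = 5) → ((adj w z = true ∨ adj z w = true) ↔
    |max (lf S α β ν w - rt S α β ν z) (lf S α β ν z - rt S α β ν w)| ≤ τ)

/-- the adjacency of a vertex in a gadget for a near pair of base vertices, and an interval -/
def S_qc1 : Prop := ∀ (I : Inst) (α β ν : Lb → ℤ) (τ N S : ℤ), Marks I α β ν τ N →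
  2 * N + 10 * τ ≤ S → ∀ w ∈ vs I, ∀ z ∈ vs I, 1 ≤ w.1 → w.1 ≤ 4 →
  (z.1 = 0 ∨ z.1 = 5) → ((adj w z = true ∨ adj z w = true) ↔
    |max (or S τ α β ν w - rt S α β ν z) (lf S α β ν z - ol S τ α β ν w)| ≤ τ)

/-- the same for the kinds `6, …, 9` -/
def S_qc2 : Prop := ∀ (I : Inst) (α β ν : Lb → ℤ) (τ N S : ℤ), Marks I α β ν τ N →
  2 * N + 10 * τ ≤ S → ∀ w ∈ vs I, ∀ z ∈ vs I, 6 ≤ w.1 → w.1 ≤ 9 →
  (z.1 = 0 ∨ z.1 = 5) → ((adj w z = true ∨ adj z w = true) ↔
    |max (or S τ α β ν w - rt S α β ν z) (lf S α β ν z - ol S τ α β ν w)| ≤ τ)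

/-- the same for the kinds `10, …, 13` -/
def S_qc3 : Prop := ∀ (I : Inst) (α β ν : Lb → ℤ) (τ N S : ℤ), Marks I α β ν τ N →
  2 * N + 10 * τ ≤ S → ∀ w ∈ vs I, ∀ z ∈ vs I, 10 ≤ w.1 → w.1 ≤ 13 →
  (z.1 = 0 ∨ z.1 = 5) → ((adj w z = true ∨ adj z w = true) ↔
    |max (or S τ α β ν w - rt S α β ν z) (lf S α β ν z - ol S τ α β ν w)| ≤ τ)

/-- the overlaps are longer than `τ` -/
def S_len : Prop := ∀ (I : Inst) (α β ν : Lb → ℤ) (τ N S : ℤ), Marks I α β ν τ N →
  2 * N + 10 * τ ≤ S → ∀ w ∈ vs I, w.1 ≠ 0 → w.1 ≠ 5 →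
  τ < or S τ α β ν w - ol S τ α β ν w

/-- the adjacency inside the gadgets -/
def S_qq : Prop := ∀ (w z : VL), w.1 ≤ 13 → z.1 ≤ 13 → w.1 ≠ 0 → w.1 ≠ 5 → z.1 ≠ 0 → z.1 ≠ 5 →
  w ≠ z → ((adj w z = true ∨ adj z w = true) ↔ (stemNo w.1 = stemNo z.1 ∧ w.2 = z.2))

/-- The tree: `st v = none` means that `v` is an interval `[A v, B v]`, attached to the spine at the
position `A v + B v`; the other `v` are attached to the stem `st v`. -/
def S_real : Prop := ∀ (V R : Type) [Finite V] [Finite R] (st : V → Option R) (A B : V → ℤ)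
  (l r : R → ℤ) (K : ℝ), (∀ s, l s < r s) → (∀ s, ∃ v, st v = some s) →
  (∃ v w, st v = none ∧ st w = none ∧ A v + B v ≠ A w + B w) →
  ∃ (t : LeafTree V) (H : ℝ), K ≤ H ∧
    (∀ u v, u ≠ v → st u = none → st v = none →
      t.dist u v = 2 * H + 2 * ((max (A u - B v) (A v - B u) : ℤ) : ℝ)) ∧
    (∀ u v s, st u = some s → st v = none →
      t.dist u v = 2 * H + 2 * ((max (r s - B v) (A v - l s) : ℤ) : ℝ)) ∧
    (∀ u v s, u ≠ v → st u = some s → st v = some s → t.dist u v = 2 * H) ∧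
    (∀ u v s s', s ≠ s' → st u = some s → st v = some s' →
      2 * H + (((r s - l s) + (r s' - l s') : ℤ) : ℝ) ≤ t.dist u v)

/-- from orderings to marks -/
def S_marks : Prop := ∀ I : Inst, Good I → Betweenness I →
  ∃ (α β ν : Lb → ℤ) (τ N : ℤ), Marks I α β ν τ N

/-- from marks to trees -/
def S_yes : Prop := ∀ (I : Inst) (α β ν : Lb → ℤ) (τ N : ℤ), Good I → Marks I α β ν τ N →
  IsPCG (gr I)

/-- the four-point condition for the distances of leaves -/
def S_fp : Prop := ∀ (V : Type) (t : LeafTree V), Pool.Agent.V11227.PC.FP t.dist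

/-- the gadget which forces a pair to be near -/
def S_forceNear : Prop := ∀ (V : Type) (d : V → V → ℝ) (dmin dmax : ℝ),
  Pool.Agent.V11227.PC.FP d → dmin ≤ dmax → ∀ u v a b c e : V,
  (dmin ≤ d a b) → (dmin ≤ d c e) →
  (∀ x ∈ [a, b, c, e], d x u ≤ dmax ∧ d x v ≤ dmax) →
  (∀ x ∈ [a, b], ∀ y ∈ [c, e], d x y < dmin ∨ dmax < d x y) →
  (d u v < dmin ∨ dmax < d u v) → d u v < dmin

/-- the gadget which forces a pair to be far -/
def S_forceFar : Prop := ∀ (V : Type) (d : V → V → ℝ) (dmin : ℝ),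
  Pool.Agent.V11227.PC.FP d → ∀ p q x y : V, dmin ≤ d x p → dmin ≤ d y q →
  d q x < dmin → d p y < dmin → d x y < dmin → ¬ d p q < dmin

/-- in a pairwise compatibility graph all near pairs are near and all far pairs are not near -/
def S_force : Prop := ∀ (I : Inst) (t : LeafTree {w : VL // w ∈ vs I}) (dmin dmax : ℝ),
  dmin ≤ dmax → gr I = t.pcg dmin dmax → ∀ (u v : Lb) (hu : (0, (u, u)) ∈ vs I)
  (hv : (0, (v, v)) ∈ vs I), u ≠ v →
  (near I u v = true → t.dist ⟨(0, (u, u)), hu⟩ ⟨(0, (v, v)), hv⟩ < dmin) ∧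
  (far I u v = true → ¬ t.dist ⟨(0, (u, u)), hu⟩ ⟨(0, (v, v)), hv⟩ < dmin)

/-- from trees to orderings -/
def S_no : Prop := ∀ I : Inst, Good I → IsPCG (gr I) → Betweenness I

/-- the graph of the matrix -/
def S_iso : Prop := ∀ I : Inst, PCGRecognition (red I) ↔ IsPCG (gr I)

/-- the reduction is computable in polynomial time -/
def S_poly : Prop := NPC.Poly red

end Pool.Agent.H717.PR
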